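import Mathlib

namespace Pool.Agent.Results.MP_c23b5e_al.Frob

def IsFrob {Γ : Type} [Group Γ] (N : Subgroup Γ) (𝒜 : Set (Subgroup Γ)) : Prop :=
  N.Normal ∧ (∀ g : Γ, g ≠ 1 → ∃! B, B ∈ insert N 𝒜 ∧ g ∈ B) ∧
    (∀ A ∈ 𝒜, (∀ γ, γ ∉ A → ∀ a ∈ A, γ⁻¹ * a * γ ∈ A → a = 1) ∧
      ∀ γ, A.comap (MulAut.conj γ).toMonoidHom ∈ 𝒜) ∧
    N ≠ ⊥ ∧ N ∉ 𝒜 ∧ ⊥ ∉ 𝒜 ∧ 𝒜.Nonempty

open MulAction

theorem frob_of_action {Γ X : Type} [Group Γ] [MulAction Γ X] (N : Subgroup Γ) (hN : N.Normal)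
    (h1 : ∀ (g : Γ) (p q : X), g • p = p → g • q = q → p ≠ q → g = 1)
    (h2 : ∀ g ∉ N, ∃ p : X, g • p = p)
    (h3 : ∀ g ∉ N, ∀ h ∈ N, ∀ p : X, g • p = p → h • p = p → h = 1)
    (h4 : N ≠ ⊥) (h5 : N ≠ ⊤) :
    IsFrob N {A | ∃ p : X, A = stabilizer Γ p ∧ ¬ A ≤ N} := by
  refine ⟨hN, fun g hg => ?_, ?_, h4, ?_, ?_, ?_⟩
  · by_cases hgN : g ∈ N
    · refine ⟨N, ⟨Or.inl rfl, hgN⟩, ?_⟩
      rintro B ⟨rfl | ⟨p, rfl, hp⟩, hB⟩
      · rfl
      · obtain ⟨k, hk, hkN⟩ := SetLike.not_le_iff_exists.1 hp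
        exact absurd (h3 k hkN g hgN p hk hB) hg
    · obtain ⟨p, hp⟩ := h2 g hgN
      refine ⟨stabilizer Γ p, ⟨Or.inr ⟨p, rfl, fun h => hgN (h hp)⟩, hp⟩, ?_⟩
      rintro B ⟨rfl | ⟨q, rfl, -⟩, hB⟩
      · exact absurd hB hgN
      · by_contra h
        exact hg (h1 g q p hB hp fun e => h (by rw [e]))
  · rintro A ⟨p, rfl, hp⟩
    refine ⟨fun γ hγ a ha h => h1 a p (γ • p) ha ?_ fun e => hγ e.symm, fun γ => ⟨γ⁻¹ • p, ?_, ?_⟩⟩
    · rw [mem_stabilizer_iff, mul_smul, mul_smul, inv_smul_eq_iff] at h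
      exact h
    · ext g
      simp only [Subgroup.mem_comap, mem_stabilizer_iff, MulEquiv.coe_toMonoidHom,
        MulAut.conj_apply, mul_smul]
      exact smul_eq_iff_eq_inv_smul γ
    · intro h
      refine hp fun k hk => ?_
      have : γ⁻¹ * k * γ ∈ N := h (by simpa [mul_assoc] using hk)
      simpa [mul_assoc] using hN.conj_mem _ this γ
  · rintro ⟨p, -, h⟩; exact h le_rfl
  · rintro ⟨p, -, h⟩; exact h bot_le
  · obtain ⟨g, -, hg⟩ := SetLike.exists_of_lt (lt_top_iff_ne_top.2 h5)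
    obtain ⟨p, hp⟩ := h2 g hg
    exact ⟨_, p, rfl, fun h => hg (h hp)⟩

@[ext] structure Aff (R : Type) [CommRing R] where
  w : Rˣ
  a : R

instance (R : Type) [CommRing R] : Group (Aff R) where
  mul g h := ⟨g.w * h.w, g.w * h.a + g.a⟩
  one := ⟨1, 0⟩
  inv g := ⟨g.w⁻¹, -(↑g.w⁻¹ * g.a)⟩
  mul_assoc g h k := Aff.ext (mul_assoc _ _ _) (by
    show ((g.w * h.w : Rˣ) : R) * k.a + (g.w * h.a + g.a) = g.w * (h.w * k.a + h.a) + g.a
    push_cast; ring)
  one_mul g := Aff.ext (one_mul _) (by show ((1 : Rˣ) : R) * g.a + 0 = g.a; simp)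
  mul_one g := Aff.ext (mul_one _) (by show (g.w : R) * 0 + g.a = g.a; simp)
  inv_mul_cancel g := Aff.ext (inv_mul_cancel _) (by
    show (↑g.w⁻¹ : R) * g.a + -(↑g.w⁻¹ * g.a) = 0; simp)

section
variable {R : Type} [CommRing R]
@[simp] theorem mul_w (g h : Aff R) : (g * h).w = g.w * h.w := rfl
@[simp] theorem mul_a (g h : Aff R) : (g * h).a = g.w * h.a + g.a := rfl
@[simp] theorem one_w : (1 : Aff R).w = 1 := rfl
@[simp] theorem one_a : (1 : Aff R).a = 0 := rfl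
@[simp] theorem inv_w (g : Aff R) : g⁻¹.w = g.w⁻¹ := rfl
@[simp] theorem inv_a (g : Aff R) : g⁻¹.a = -(↑g.w⁻¹ * g.a) := rfl

def wHom : Aff R →* Rˣ := ⟨⟨Aff.w, rfl⟩, fun _ _ => rfl⟩

variable [IsDomain R]
abbrev K (R : Type) [CommRing R] := FractionRing R

noncomputable instance : MulAction (Aff R) (K R) where
  smul g x := algebraMap R (K R) g.w * x + algebraMap R (K R) g.a
  one_smul x := by
    show algebraMap R (K R) (1 : Rˣ) * x + algebraMap R (K R) 0 = x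
    simp
  mul_smul g h x := by
    show algebraMap R (K R) (g.w * h.w : Rˣ) * x + algebraMap R (K R) (g.w * h.a + g.a) =
      algebraMap R (K R) g.w * (algebraMap R (K R) h.w * x + algebraMap R (K R) h.a) +
        algebraMap R (K R) g.a
    push_cast; ring

theorem smul_def (g : Aff R) (x : K R) :
    g • x = algebraMap R (K R) g.w * x + algebraMap R (K R) g.a := rfl

theorem tr_fix (g : Aff R) (hw : g.w = 1) (p : K R) (h : g • p = p) : g = 1 := by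
  rw [smul_def, hw] at h
  refine Aff.ext hw (IsFractionRing.injective R (K R) ?_)
  simpa using h

theorem two_fix (g : Aff R) (p q : K R) (hp : g • p = p) (hq : g • q = q) (h : p ≠ q) : g = 1 := by
  refine tr_fix g (Units.ext (IsFractionRing.injective R (K R) ?_)) p hp
  rw [smul_def] at hp hq
  have : (algebraMap R (K R) g.w - 1) * (p - q) = 0 := by linear_combination hp - hq
  simpa [sub_eq_zero, h] using this

theorem ex_fix (g : Aff R) (hw : g.w ≠ 1) : ∃ p : K R, g • p = p := by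
  have : 1 - algebraMap R (K R) g.w ≠ 0 := fun e => hw (Units.ext
    (IsFractionRing.injective R (K R) (by simpa using (sub_eq_zero.1 e).symm)))
  refine ⟨algebraMap R (K R) g.a / (1 - algebraMap R (K R) g.w), ?_⟩
  rw [smul_def]; field_simp; ring

theorem comm_fix (g h : Aff R) (p : K R) (hg : g • p = p) (hh : h • p = p) :
    (1 - (h.w : R)) * g.a = (1 - (g.w : R)) * h.a := by
  apply IsFractionRing.injective R (K R)
  rw [smul_def] at hg hh
  push_cast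
  linear_combination (1 - algebraMap R (K R) h.w) * hg - (1 - algebraMap R (K R) g.w) * hh

theorem frob_tr (Γ : Subgroup (Aff R)) (h4 : ∃ g ∈ Γ, g.w = 1 ∧ g.a ≠ 0) (h5 : ∃ g ∈ Γ, g.w ≠ 1) :
    IsFrob (wHom.comp Γ.subtype).ker
      {A | ∃ p : K R, A = stabilizer Γ p ∧ ¬ A ≤ (wHom.comp Γ.subtype).ker} := by
  refine frob_of_action _ inferInstance
    (fun g p q hp hq h => Subtype.ext (two_fix g.1 p q hp hq h)) (fun g hg => ex_fix g.1 hg)
    (fun g _ h hh p _ hp => Subtype.ext (tr_fix h.1 hh p hp)) ?_ ?_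
  · obtain ⟨g, hg, h1, h2⟩ := h4
    intro e
    have : (⟨g, hg⟩ : Γ) ∈ (wHom.comp Γ.subtype).ker := h1
    rw [e, Subgroup.mem_bot] at this
    exact h2 (congrArg (fun x : Γ => x.1.a) this)
  · obtain ⟨g, hg, h1⟩ := h5
    intro e
    have : (⟨g, hg⟩ : Γ) ∈ (wHom.comp Γ.subtype).ker := e ▸ Subgroup.mem_top _
    exact h1 this

end

open PowerSeries

noncomputable def ex (s : ℂ) : ℂ⟦X⟧ := rescale s (exp ℂ)

theorem ex_add (s t : ℂ) : ex s * ex t = ex (s + t) := exp_mul_exp_eq_exp_add s t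
theorem ex_zero : ex 0 = 1 := by simp [ex, rescale_zero]
theorem ex_c0 (s : ℂ) : coeff 0 (ex s) = 1 := by simp [ex, coeff_rescale]
theorem ex_c1 (s : ℂ) : coeff 1 (ex s) = s := by simp [ex, coeff_rescale]

noncomputable def exU (s : ℂ) : ℂ⟦X⟧ˣ :=
  ⟨ex s, ex (-s), by rw [ex_add, add_neg_cancel, ex_zero], by rw [ex_add, neg_add_cancel, ex_zero]⟩

theorem c0_mul (f g : ℂ⟦X⟧) : coeff 0 (f * g) = coeff 0 f * coeff 0 g := by simp
theorem c1_mul (f g : ℂ⟦X⟧) : coeff 1 (f * g) = coeff 0 f * coeff 1 g + coeff 1 f * coeff 0 g := by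
  simp [coeff_mul, Finset.Nat.antidiagonal_succ]

noncomputable def G2 : Subgroup (Aff ℂ⟦X⟧) where
  carrier := {g | ∃ s, g.w = exU s ∧ coeff 0 g.a = s.im}
  one_mem' := ⟨0, Units.ext ex_zero.symm, by simp⟩
  mul_mem' := by
    rintro g h ⟨s, h1, h2⟩ ⟨t, h3, h4⟩
    refine ⟨s + t, by rw [mul_w, h1, h3]; exact Units.ext (ex_add s t), ?_⟩
    rw [mul_a, map_add, c0_mul, h1, h2, h4, show ((exU s : ℂ⟦X⟧ˣ) : ℂ⟦X⟧) = ex s from rfl, ex_c0]
    simp [add_comm]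
  inv_mem' := by
    rintro g ⟨s, h1, h2⟩
    refine ⟨-s, by rw [inv_w, h1]; exact Units.ext rfl, ?_⟩
    rw [inv_a, map_neg, c0_mul, h1, h2, show (((exU s)⁻¹ : ℂ⟦X⟧ˣ) : ℂ⟦X⟧) = ex (-s) from rfl, ex_c0]
    simp

noncomputable def N2 : Subgroup G2 where
  carrier := {g | coeff 0 g.1.a = 0}
  one_mem' := by simp
  mul_mem' := by
    rintro g h h1 h2
    simp only [Set.mem_ofPred_eq, Subgroup.coe_mul, mul_a, map_add, c0_mul] at *
    rw [h1, h2]; simp
  inv_mem' := by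
    rintro g h1
    simp only [Set.mem_ofPred_eq, Subgroup.coe_inv, inv_a, map_neg, c0_mul] at *
    rw [h1]; simp

theorem G2_comm (g h : Aff ℂ⟦X⟧) (s t : ℂ) (hs : g.w = exU s) (ht : h.w = exU t) (p : K ℂ⟦X⟧)
    (hg : g • p = p) (hh : h • p = p) : t * coeff 0 g.a = s * coeff 0 h.a := by
  have := congrArg (coeff 1) (comm_fix g h p hg hh)
  rw [c1_mul, c1_mul, hs, ht] at this
  simp only [map_sub, exU, ex_c0, ex_c1] at this
  simpa using this

noncomputable def el (s : ℂ) : G2 := ⟨⟨exU s, C (s.im : ℂ)⟩, s, rfl, by simp⟩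

theorem exU_inj {s t : ℂ} (h : exU s = exU t) : s = t := by
  rw [← ex_c1 s, ← ex_c1 t]; exact congrArg (fun u : ℂ⟦X⟧ˣ => coeff 1 (u : ℂ⟦X⟧)) h

theorem exU_zero : exU 0 = 1 := Units.ext ex_zero

theorem frob2 : IsFrob N2 {A | ∃ p : K ℂ⟦X⟧, A = stabilizer G2 p ∧ ¬ A ≤ N2} := by
  refine frob_of_action _ ⟨fun n hn g => ?_⟩
    (fun g p q hp hq h => Subtype.ext (two_fix g.1 p q hp hq h))
    (fun g hg => ex_fix g.1 fun e => hg ?_)
    (fun g hg h hh p hp hq => Subtype.ext (tr_fix h.1 ?_ p hq)) ?_ ?_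
  · obtain ⟨s, h1, -⟩ := n.2
    have hn : coeff 0 n.1.a = 0 := hn
    show coeff 0 (g.1 * n.1 * g.1⁻¹).a = 0
    have := congrArg (coeff 0) g.1.w.mul_inv
    simp only [mul_a, mul_w, inv_a, Units.val_mul, map_add, c0_mul, map_neg, hn, h1, exU, ex_c0] at *
    simp only [coeff_zero_one] at this
    linear_combination (-coeff 0 g.1.a) * this
  · obtain ⟨s, h1, h2⟩ := g.2
    have : s = 0 := exU_inj (by rw [← h1, e, exU_zero])
    show coeff 0 g.1.a = 0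
    rw [h2, this]; simp
  · obtain ⟨s, h1, -⟩ := g.2
    obtain ⟨t, h2, -⟩ := h.2
    have := G2_comm g.1 h.1 s t h1 h2 p hp hq
    rw [show coeff 0 h.1.a = 0 from hh, mul_zero] at this
    rw [h2, (mul_eq_zero.1 this).resolve_right hg, exU_zero]
  · intro e
    have : el 1 ∈ N2 := by show coeff 0 (C ((1 : ℂ).im : ℂ)) = 0; simp
    rw [e, Subgroup.mem_bot] at this
    exact one_ne_zero (exU_inj ((congrArg (fun x : G2 => x.1.w) this).trans exU_zero.symm))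
  · intro e
    have : el Complex.I ∈ N2 := e ▸ Subgroup.mem_top _
    have : coeff 0 (C (Complex.I.im : ℂ)) = 0 := this
    simp at this

def iu : GaussianIntˣ := ⟨⟨0, 1⟩, ⟨0, -1⟩, by decide, by decide⟩

theorem result :
    (∃ (Γ : Type) (_ : Group Γ) (N N' : Subgroup Γ) (𝒜 𝒜' : Set (Subgroup Γ)),
      Infinite Γ ∧ IsFrob N 𝒜 ∧ IsFrob N' 𝒜' ∧ N ≠ N') ∧
    (∃ (Γ : Type) (_ : Group Γ) (N : Subgroup Γ) (𝒜 : Set (Subgroup Γ)),
      Infinite Γ ∧ IsFrob N 𝒜 ∧ ∃ A ∈ 𝒜, ∃ B ∈ 𝒜, IsEmpty (A ≃* B)) ∧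
    (∃ (Γ : Type) (_ : Group Γ) (N : Subgroup Γ) (𝒜 : Set (Subgroup Γ)),
      Infinite Γ ∧ IsFrob N 𝒜 ∧ ∀ A ∈ 𝒜, ¬ ∀ g : Γ, ∃ n ∈ N, ∃ a ∈ A, g = n * a) := by
  have inf2 : Infinite G2 := Infinite.of_injective el fun s t h =>
    exU_inj (congrArg (fun x : G2 => x.1.w) h)
  have e1 : exU 1 ≠ 1 := fun e => one_ne_zero (exU_inj (e.trans exU_zero.symm))
  have f1 := frob_tr G2 ⟨⟨1, X⟩, ⟨0, exU_zero.symm, by simp⟩, rfl, X_ne_zero⟩ ⟨(el 1).1, (el 1).2, e1⟩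
  refine ⟨⟨G2, inferInstance, _, _, _, _, inf2, f1, frob2, fun e => e1 ?_⟩,
    ⟨(⊤ : Subgroup (Aff GaussianInt)), inferInstance, _, _, ?_,
      frob_tr ⊤ ⟨⟨1, 1⟩, trivial, rfl, one_ne_zero⟩ ⟨⟨-1, 0⟩, trivial, by decide⟩,
      _, ⟨0, rfl, ?_⟩, _, ⟨1 / 2, rfl, ?_⟩, ⟨fun φ => ?_⟩⟩,
    ⟨G2, inferInstance, _, _, inf2, f1, ?_⟩⟩
  · have : el 1 ∈ N2 := by show coeff 0 (C ((1 : ℂ).im : ℂ)) = 0; simp
    rw [← e] at this
    exact this
  · exact Infinite.of_injective (fun a : GaussianInt => (⟨⟨1, a⟩, trivial⟩ : (⊤ : Subgroup (Aff _))))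
      fun a b h => congrArg (fun x : (⊤ : Subgroup (Aff GaussianInt)) => x.1.a) h
  · intro h
    have : (-1 : GaussianIntˣ) = 1 := @h ⟨⟨-1, 0⟩, trivial⟩ (by
      show (⟨-1, 0⟩ : Aff GaussianInt) • (0 : K GaussianInt) = 0
      simp [smul_def])
    exact absurd this (by decide)
  · intro h
    have : (-1 : GaussianIntˣ) = 1 := @h ⟨⟨-1, 1⟩, trivial⟩ (by
      show (⟨-1, 1⟩ : Aff GaussianInt) • (1 / 2 : K GaussianInt) = 1 / 2
      simp [smul_def]; ring)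
    exact absurd this (by decide)
  · have sq : ∀ b : stabilizer (⊤ : Subgroup (Aff GaussianInt)) (1 / 2 : K GaussianInt), b * b = 1 := by
      rintro ⟨⟨⟨w, a⟩, _⟩, hb⟩
      have hb : (⟨w, a⟩ : Aff GaussianInt) • (1 / 2 : K GaussianInt) = 1 / 2 := hb
      have e : (w : GaussianInt) + 2 * a = 1 := by
        apply IsFractionRing.injective GaussianInt (K GaussianInt)
        rw [smul_def] at hb
        rw [map_add, map_mul, map_ofNat, map_one]
        linear_combination 2 * hb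
      have n : (w : GaussianInt).norm = 1 := (Zsqrtd.norm_eq_one_iff' (by norm_num) _).2 w.isUnit
      have e2 := congrArg Zsqrtd.im e
      have e3 := congrArg Zsqrtd.re e
      simp [Zsqrtd.norm] at n e2 e3
      have i0 : (w : GaussianInt).im = 0 := by
        have : (w : GaussianInt).re ≠ 0 := by omega
        have := mul_self_pos.2 this
        nlinarith [mul_self_nonneg (w : GaussianInt).im]
      have ww : w * w = 1 := by
        ext <;> simp [i0] at n ⊢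
        exact n
      refine Subtype.ext (Subtype.ext (tr_fix _ ww (1 / 2) ?_))
      show ((⟨w, a⟩ : Aff GaussianInt) * ⟨w, a⟩) • (1 / 2 : K GaussianInt) = 1 / 2
      rw [mul_smul, hb, hb]
    let g : stabilizer (⊤ : Subgroup (Aff GaussianInt)) (0 : K GaussianInt) :=
      ⟨⟨⟨iu, 0⟩, trivial⟩, by
        show (⟨iu, 0⟩ : Aff GaussianInt) • (0 : K GaussianInt) = 0
        simp [smul_def]⟩
    have : g * g = 1 := φ.injective (by rw [map_mul, sq, map_one])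
    have : iu * iu = 1 := congrArg (fun x => x.1.1.w) this
    exact absurd this (by decide)
  · rintro A ⟨p, rfl, -⟩ h
    obtain ⟨n, hn, a, ha, e⟩ := h (el 1)
    obtain ⟨m, hm, b, hb, e'⟩ := h (el Complex.I)
    have hn : n.1.w = 1 := hn
    have hm : m.1.w = 1 := hm
    have wa : a.1.w = exU 1 := by
      have := congrArg (fun x : G2 => x.1.w) e
      simpa [hn, el] using this.symm
    have wb : b.1.w = exU Complex.I := by
      have := congrArg (fun x : G2 => x.1.w) e'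
      simpa [hm, el] using this.symm
    have := G2_comm a.1 b.1 _ _ wa wb p ha hb
    obtain ⟨s, h1, h2⟩ := a.2
    obtain ⟨t, h3, h4⟩ := b.2
    rw [h2, h4, exU_inj (h1.symm.trans wa), exU_inj (h3.symm.trans wb)] at this
    simp at this

end Pool.Agent.Results.MP_c23b5e_al.Frob
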